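import Mathlib
import Pool.Agent.U424.DQ.StmN

/-!
# Project DQN (helper424), part REALWM (helper399): finitely many good real positions

The proof follows `Pool.Agent.N402.PW.Realw` (helper402) and `Pool.Agent.N482.PN.Realn` (helper482).
-/

set_option autoImplicit false

namespace Pool.Agent.U399.DQ

open Finset Filter Topology
open Pool.Agent.U424.DQ
open Pool.Agent.N546.PN (Typ Mon val dval ic bx sz Pt LocN GlobN Smo bval sz1 bx1 S_UN3)

section

variable {n r : ℕ} {d : Fin r → ℕ} {e : (Σ i : Fin r, Fin (d i)) → ℕ}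

/-- scaling of the values -/
theorem val_scale {D : ℕ} {a b : Mon n D → ℝ} {s : ℝ} (hab : ∀ m, b m = a m * s)
    (x : Fin (n + 1) → ℝ) : val b x = val a x * s := by
  unfold N546.PN.val
  rw [Finset.sum_mul]
  refine Finset.sum_congr rfl fun m _ => ?_
  rw [hab]
  ring

/-- scaling of the quadrics -/
theorem on_scale {a b : (Σ i : Fin r, Fin (d i)) → ℝ} {s : ℝ} (h : ∀ k, b k = a k * s)
    {z : (i : Fin r) → Fin (d i) → ℝ} (hon : OnM a z) : OnM b z := by
  intro i
  refine ⟨(hon i).1, ?_⟩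
  have h2 : ∑ l, b ⟨i, l⟩ * z i l ^ 2 = s * ∑ l, a ⟨i, l⟩ * z i l ^ 2 := by
    rw [Finset.mul_sum]
    refine Finset.sum_congr rfl fun l _ => ?_
    rw [h]
    ring
  rw [h2, (hon i).2, mul_zero]

theorem exists_min {X : Type*} (f : X → ℝ) (t : Finset X) (h : ∀ c ∈ t, 0 < f c) :
    ∃ δ : ℝ, 0 < δ ∧ ∀ c ∈ t, δ ≤ f c := by
  classical
  induction t using Finset.induction_on with
  | empty => exact ⟨1, one_pos, fun c hc => absurd hc (Finset.notMem_empty c)⟩
  | insert a t _ ih =>
    obtain ⟨δ, hδ, hle⟩ := ih fun c hc => h c (Finset.mem_insert_of_mem hc)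
    refine ⟨min δ (f a), lt_min hδ (h a (Finset.mem_insert_self a t)), fun c hc => ?_⟩
    rcases Finset.mem_insert.1 hc with rfl | hc
    · exact min_le_right _ _
    · exact (min_le_left _ _).trans (hle c hc)

/-- the space of the triples -/
abbrev PP (n r : ℕ) (d : Fin r → ℕ) (e : (Σ i : Fin r, Fin (d i)) → ℕ) : Type :=
  ((k : Σ i : Fin r, Fin (d i)) → Mon n (e k + 1) → ℝ) × (Fin (n + 1) → ℝ) ×
    ((i : Fin r) → Fin (d i) → ℝ)

theorem val_cont (k : Σ i : Fin r, Fin (d i)) :
    Continuous fun q : PP n r d e => val (q.1 k) q.2.1 := by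
  unfold N546.PN.val
  refine continuous_finsetSum _ fun m _ => ?_
  refine Continuous.mul ?_ (continuous_finsetProd _ fun i _ => ?_)
  · exact (continuous_apply m).comp ((continuous_apply k).comp continuous_fst)
  · exact ((continuous_apply i).comp (continuous_fst.comp continuous_snd)).pow _

theorem z_cont (i : Fin r) (l : Fin (d i)) : Continuous fun q : PP n r d e => q.2.2 i l :=
  (continuous_apply l).comp ((continuous_apply i).comp (continuous_snd.comp continuous_snd))

end

theorem realwm_ (h1 : Pool.Agent.N546.PN.S_DEL) (h2 : Pool.Agent.N546.PN.S_SMR)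
    (h3 : S_LOCWM ℝ) : S_REALWM := by
  classical
  intro n r d hd e ε ε' hε hε'
  obtain ⟨Δ, hΔ0, hΔ⟩ := h1 n (Σ i : Fin r, Fin (d i)) e
  obtain ⟨η, hη, H1, hH1⟩ := h2 ((k : Σ i : Fin r, Fin (d i)) × Mon n (e k + 1)) Δ hΔ0 ε hε
  obtain ⟨F, hF⟩ : ∃ F : ((k : Σ i : Fin r, Fin (d i)) → Mon n (e k + 1) → ℝ) → ℝ, F = fun c =>
    MvPolynomial.aeval (fun q : (k : Σ i : Fin r, Fin (d i)) × Mon n (e k + 1) =>
      c q.1 q.2) Δ := ⟨_, rfl⟩
  have hFc : Continuous F := by
    rw [hF]
    have h5 : Continuous fun c : (k : Σ i : Fin r, Fin (d i)) → Mon n (e k + 1) → ℝ =>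
        fun q : (k : Σ i : Fin r, Fin (d i)) × Mon n (e k + 1) => c q.1 q.2 :=
      continuous_pi fun q => (continuous_apply q.2).comp (continuous_apply q.1)
    have h6 := (MvPolynomial.continuous_eval (MvPolynomial.map (algebraMap ℤ ℝ) Δ)).comp h5
    have h7 : (fun c : (k : Σ i : Fin r, Fin (d i)) → Mon n (e k + 1) → ℝ =>
        MvPolynomial.aeval (fun q : (k : Σ i : Fin r, Fin (d i)) × Mon n (e k + 1) =>
          c q.1 q.2) Δ) =
        (fun x => MvPolynomial.eval x (MvPolynomial.map (algebraMap ℤ ℝ) Δ)) ∘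
          fun c : (k : Σ i : Fin r, Fin (d i)) → Mon n (e k + 1) → ℝ =>
            fun q : (k : Σ i : Fin r, Fin (d i)) × Mon n (e k + 1) => c q.1 q.2 := by
      funext c
      rw [Function.comp, MvPolynomial.eval_map, MvPolynomial.aeval_def]
    rw [h7]
    exact h6
  -- the compact set
  obtain ⟨K, hK⟩ : ∃ K : Set (PP n r d e),
    K = (Metric.closedBall 0 1 ×ˢ (Metric.closedBall 0 1 ×ˢ Metric.closedBall 0 1)) ∩
      {q : PP n r d e | η ≤ |F q.1| ∧ ‖q.2.1‖ = 1 ∧ (∀ i, ‖q.2.2 i‖ = 1) ∧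
        ∀ i, ∑ l, val (q.1 ⟨i, l⟩) q.2.1 * q.2.2 i l ^ 2 = 0} := ⟨_, rfl⟩
  have hKc : IsCompact K := by
    rw [hK]
    refine ((isCompact_closedBall _ _).prod
      ((isCompact_closedBall _ _).prod (isCompact_closedBall _ _))).inter_right ?_
    refine IsClosed.inter (isClosed_le continuous_const (hFc.comp continuous_fst).abs) ?_
    refine IsClosed.inter (isClosed_eq (continuous_fst.comp continuous_snd).norm
      continuous_const) ?_
    refine IsClosed.inter ?_ ?_
    · have h5 : {q : PP n r d e | ∀ i, ‖q.2.2 i‖ = 1} =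
          ⋂ i, {q : PP n r d e | ‖q.2.2 i‖ = 1} := by
        ext q
        simp
      show IsClosed {q : PP n r d e | ∀ i, ‖q.2.2 i‖ = 1}
      rw [h5]
      exact isClosed_iInter fun i => isClosed_eq ((continuous_apply i).comp
        (continuous_snd.comp continuous_snd)).norm continuous_const
    · have h5 : {q : PP n r d e | ∀ i, ∑ l, val (q.1 ⟨i, l⟩) q.2.1 * q.2.2 i l ^ 2 = 0} =
          ⋂ i, {q : PP n r d e | ∑ l, val (q.1 ⟨i, l⟩) q.2.1 * q.2.2 i l ^ 2 = 0} := by
        ext q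
        simp
      show IsClosed {q : PP n r d e | ∀ i, ∑ l, val (q.1 ⟨i, l⟩) q.2.1 * q.2.2 i l ^ 2 = 0}
      rw [h5]
      exact isClosed_iInter fun i => isClosed_eq
        (continuous_finsetSum _ fun l _ => (val_cont _).mul ((z_cont _ _).pow 2))
        continuous_const
  have hex : ∀ q ∈ K, ∃ (x : Fin (n + 1) → ℝ) (δ : ℝ), 0 < δ ∧ (∀ i, ‖x i - q.2.1 i‖ < ε' / 2) ∧
      GdM q.1 q.2.2 x δ (ε' / 2) := by
    intro q hq
    rw [hK] at hq
    obtain ⟨_, hqF, hqx, hqz, hqo⟩ := hq
    have hsm : Smo q.1 := by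
      by_contra hcon
      have h5 := hΔ ℝ q.1 hcon
      have h6 : F q.1 = 0 := by
        rw [hF]
        exact h5
      rw [h6, abs_zero] at hqF
      linarith
    have hx0 : q.2.1 ≠ 0 := by
      intro h
      rw [h, norm_zero] at hqx
      exact zero_ne_one hqx
    have hon : OnM (fun k => val (q.1 k) q.2.1) q.2.2 := by
      intro i
      refine ⟨fun h => ?_, hqo i⟩
      have h5 := hqz i
      rw [h, norm_zero] at h5
      exact zero_ne_one h5
    obtain ⟨x', hx', δ, hδ, hg⟩ := h3 n r d hd e q.1 q.2.1 q.2.2 hsm hx0 hon (ε' / 2)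
      (by positivity)
    exact ⟨x', δ, hδ, hx', hg⟩
  choose! xf df hdf hxf hgf using hex
  obtain ⟨t, htK, htc⟩ := hKc.elim_nhds_subcover (fun q => Metric.ball q (min (df q) (ε' / 2)))
    (fun q hq => Metric.ball_mem_nhds q (lt_min (hdf q hq) (by positivity)))
  obtain ⟨δ, hδ, hδt⟩ := exists_min df t fun q hq => hdf q (htK q hq)
  refine ⟨t.card, fun j => xf (t.equivFin.symm j), δ, hδ, max H1 1, fun H hH => ?_⟩
  have hHa : H1 ≤ H := (le_max_left _ _).trans hH
  have hHb : 1 ≤ H := (le_max_right _ _).trans hH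
  have hHpos : (0 : ℝ) < H := by exact_mod_cast hHb
  have hcard : Fintype.card ((k : Σ i : Fin r, Fin (d i)) × Mon n (e k + 1)) = sz n e :=
    Fintype.card_sigma
  rw [← hcard]
  refine le_trans ?_ (hH1 H hHa)
  refine Nat.cast_le.2 ?_
  refine Finset.card_le_card_of_injOn
    (fun (c : (k : Σ i : Fin r, Fin (d i)) → Mon n (e k + 1) → ℤ)
      (q : (k : Σ i : Fin r, Fin (d i)) × Mon n (e k + 1)) => c q.1 q.2) ?_ ?_
  · intro c hc
    obtain ⟨hcb, hno⟩ := Finset.mem_filter.1 (Finset.mem_coe.1 hc)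
    have hcb' : ∀ k m, c k m ∈ Icc (-(H : ℤ)) H := by
      intro k m
      exact Fintype.mem_piFinset.1 (Fintype.mem_piFinset.1 hcb k) m
    refine Finset.mem_coe.2 (Finset.mem_filter.2 ⟨Fintype.mem_piFinset.2 fun q => hcb' q.1 q.2, ?_⟩)
    by_contra hbig
    push Not at hbig
    obtain ⟨c', hc'⟩ : ∃ c' : (k : Σ i : Fin r, Fin (d i)) → Mon n (e k + 1) → ℝ,
      c' = fun k m => (c k m : ℝ) / H := ⟨_, rfl⟩
    have hFc' : η ≤ |F c'| := by
      rw [hF, hc']
      exact hbig
    have hdown : ∀ (k : Σ i : Fin r, Fin (d i)) (x : Fin (n + 1) → ℝ),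
        val (c' k) x = val (ic c ℝ k) x * (H : ℝ)⁻¹ := by
      intro k x
      refine val_scale (fun m => ?_) x
      rw [hc']
      rfl
    have hup : ∀ (k : Σ i : Fin r, Fin (d i)) (x : Fin (n + 1) → ℝ),
        val (ic c ℝ k) x = val (c' k) x * H := by
      intro k x
      rw [hdown, inv_mul_cancel_right₀ hHpos.ne']
    have hball : c' ∈ Metric.closedBall
        (0 : (k : Σ i : Fin r, Fin (d i)) → Mon n (e k + 1) → ℝ) 1 := by
      rw [Metric.mem_closedBall, dist_pi_le_iff zero_le_one]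
      intro k
      rw [dist_pi_le_iff zero_le_one]
      intro m
      have h5 := Finset.mem_Icc.1 (hcb' k m)
      rw [hc', Real.dist_eq]
      show |(c k m : ℝ) / H - 0| ≤ 1
      rw [sub_zero, abs_div, abs_of_pos hHpos, div_le_one hHpos, abs_le]
      constructor
      · exact_mod_cast h5.1
      · exact_mod_cast h5.2
    apply hno
    intro x z hx hz hon
    have hmem : ((c', x, z) : PP n r d e) ∈ K := by
      rw [hK]
      refine ⟨⟨hball, ?_, ?_⟩, hFc', hx, hz, ?_⟩
      · rw [mem_closedBall_zero_iff]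
        exact hx.le
      · rw [mem_closedBall_zero_iff, pi_norm_le_iff_of_nonneg zero_le_one]
        exact fun i => (hz i).le
      · have h5 : OnM (fun k => val (c' k) x) z := on_scale (fun k => hdown k x) hon
        exact fun i => (h5 i).2
    obtain ⟨q, hq, hqb⟩ := Set.mem_iUnion₂.1 (htc hmem)
    have hd : dist ((c', x, z) : PP n r d e) q < min (df q) (ε' / 2) := hqb
    have hd1 : dist c' q.1 < df q :=
      lt_of_le_of_lt (le_max_left _ _) (hd.trans_le (min_le_left _ _))
    have hd2 : dist (x, z) q.2 < ε' / 2 :=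
      lt_of_le_of_lt (le_max_right _ _) (hd.trans_le (min_le_right _ _))
    have hd3 : dist x q.2.1 < ε' / 2 := lt_of_le_of_lt (le_max_left _ _) hd2
    have hd4 : dist z q.2.2 < ε' / 2 := lt_of_le_of_lt (le_max_right _ _) hd2
    have h7 : (t.equivFin.symm (t.equivFin ⟨q, hq⟩) : PP n r d e) = q := by
      rw [Equiv.symm_apply_apply]
    refine ⟨t.equivFin ⟨q, hq⟩, fun i => ?_, fun x'' hx'' => ?_⟩
    · show |xf (t.equivFin.symm (t.equivFin ⟨q, hq⟩) : PP n r d e) i - x i| < ε'
      rw [h7]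
      have h5 := hxf q (htK q hq) i
      rw [Real.norm_eq_abs] at h5
      have h6 : |x i - q.2.1 i| < ε' / 2 := by
        rw [← Real.dist_eq]
        exact lt_of_le_of_lt (dist_le_pi_dist x q.2.1 i) hd3
      have h8 : xf q i - x i = (xf q i - q.2.1 i) - (x i - q.2.1 i) := by ring
      rw [h8]
      refine lt_of_le_of_lt (abs_sub _ _) ?_
      linarith
    · have hx3 : ∀ i, ‖x'' i - xf q i‖ < df q := by
        intro i
        have h6 : |x'' i - xf (t.equivFin.symm (t.equivFin ⟨q, hq⟩) : PP n r d e) i| < δ := hx'' i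
        rw [h7] at h6
        rw [Real.norm_eq_abs]
        exact lt_of_lt_of_le h6 (hδt q hq)
      have hc3 : ∀ k m, ‖c' k m - q.1 k m‖ < df q := by
        intro k m
        rw [← dist_eq_norm]
        exact lt_of_le_of_lt ((dist_le_pi_dist (c' k) (q.1 k) m).trans
          (dist_le_pi_dist c' q.1 k)) hd1
      obtain ⟨hnv, z'', hz'', hon''⟩ := hgf q (htK q hq) c' x'' hc3 hx3
      refine ⟨fun k => ?_, z'', fun i l => ?_, on_scale (fun k => hup k x'') hon''⟩
      · rw [hup]
        exact mul_ne_zero (hnv k) hHpos.ne'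
      · have h5 := hz'' i l
        rw [Real.norm_eq_abs] at h5
        have h6 : |z i l - q.2.2 i l| < ε' / 2 := by
          rw [← Real.dist_eq]
          exact lt_of_le_of_lt ((dist_le_pi_dist (z i) (q.2.2 i) l).trans
            (dist_le_pi_dist z q.2.2 i)) hd4
        have h8 : z'' i l - z i l = (z'' i l - q.2.2 i l) - (z i l - q.2.2 i l) := by ring
        rw [h8]
        refine lt_of_le_of_lt (abs_sub _ _) ?_
        linarith
  · intro c _ c' _ h
    funext k m
    exact congrFun h ⟨k, m⟩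

end Pool.Agent.U399.DQ
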